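import Pool.Agent.H33.IterPi2

/-!
# Growth of the representability thresholds for sums of two iterated primes
-/

set_option autoImplicit false
set_option maxHeartbeats 1000000
open Filter Real

namespace Pool.Agent.Results.MP_778b46_nt.ThresholdGrowth

open Pool.Agent.H33.IterPi

/-- the `x`-th `a`-prime -/
noncomputable def ip (a x : ℕ) : ℕ := Nat.iterate (fun k : ℕ => Nat.nth Nat.Prime (k - 1)) (a + 1) x

/-- `2 n` is `(a, b)`-representable -/
def Rep (a b n : ℕ) : Prop := ∃ x y : ℕ, 0 < x ∧ 0 < y ∧ ip a x ≠ ip b y ∧ ip a x + ip b y = 2 * n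

/-- the scale `(a + b) log (a + b)` -/
noncomputable def scale (a b : ℕ) : ℝ := ((a + b : ℕ) : ℝ) * Real.log ((a + b : ℕ) : ℝ)

lemma le_of_ip_le (a x Y : ℕ) (hx : 0 < x) (h : ip a x ≤ Y) : x ≤ Nat.primeCounting^[a + 1] Y :=
  le_iter (a + 1) x Y hx h

/-- the number of representable `n ≤ X` is at most the product of the two iterates at `2 X` -/
lemma card_le (a b X : ℕ) : {n : ℕ | n ≤ X ∧ Rep a b n}.ncard ≤
    Nat.primeCounting^[a + 1] (2 * X) * Nat.primeCounting^[b + 1] (2 * X) := by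
  classical
  obtain ⟨F, hF⟩ : ∃ F : Finset ℕ, F = ((Finset.Icc 1 (Nat.primeCounting^[a + 1] (2 * X))) ×ˢ
    (Finset.Icc 1 (Nat.primeCounting^[b + 1] (2 * X)))).image (fun p : ℕ × ℕ => (ip a p.1 + ip b p.2) / 2) := ⟨_, rfl⟩
  have h1 : {n : ℕ | n ≤ X ∧ Rep a b n} ⊆ (F : Set ℕ) := by
    rintro n ⟨hn, x, y, hx, hy, -, he⟩
    rw [hF, Finset.coe_image]
    refine ⟨(x, y), ?_, ?_⟩
    · rw [Finset.mem_coe, Finset.mem_product, Finset.mem_Icc, Finset.mem_Icc]
      exact ⟨⟨hx, le_of_ip_le a x _ hx (by omega)⟩, ⟨hy, le_of_ip_le b y _ hy (by omega)⟩⟩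
    · simp only
      omega
  calc _ ≤ Set.ncard (F : Set ℕ) := Set.ncard_le_ncard h1 (Finset.finite_toSet _)
    _ ≤ _ := by
      rw [Set.ncard_coe_finset, hF]
      refine Finset.card_image_le.trans ?_
      rw [Finset.card_product]
      simp

/-- the upper bound for the two iterates, in either order of `a` and `b` -/
lemma two_iter_symm (ε : ℝ) (hε : 0 < ε) (hε1 : ε ≤ 1 / 2) : ∃ s₀ : ℕ, ∀ a b : ℕ, s₀ ≤ a + b → ∀ Y : ℕ,
    Real.log Y ≤ (1 - ε) * scale a b →
    Nat.primeCounting^[a + 1] Y * Nat.primeCounting^[b + 1] Y = 0 ∨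
      ((1 / 4) * (((a + b : ℕ) : ℝ)) ≤ Real.log Y ∧
        Real.log (Nat.primeCounting^[a + 1] Y : ℕ) + Real.log (Nat.primeCounting^[b + 1] Y : ℕ) ≤
        (1 - ε / 64) * Real.log Y) := by
  obtain ⟨s₀, h⟩ := two_iter ε hε hε1
  refine ⟨s₀, fun a b hs Y hY => ?_⟩
  rcases le_total b a with hab | hab
  · rcases h a b hab hs Y hY with h0 | h0
    · left; rw [h0, Nat.zero_mul]
    · right; exact h0
  · have hY2 : Real.log Y ≤ (1 - ε) * (((b + a : ℕ) : ℝ) * Real.log ((b + a : ℕ) : ℝ)) := by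
      rw [Nat.add_comm b a]; exact hY
    rcases h b a hab (by omega) Y hY2 with h0 | h0
    · left; rw [h0, Nat.mul_zero]
    · right
      rw [Nat.add_comm b a] at h0
      exact ⟨h0.1, by linarith [h0.2]⟩

/-- the first part, for small `ε` -/
lemma few (ε : ℝ) (hε : 0 < ε) (hε1 : ε ≤ 1 / 2) : ∃ s₀ : ℕ, ∀ a b : ℕ, s₀ ≤ a + b → ∀ X : ℕ, 1 ≤ X →
    Real.log X ≤ (1 - ε) * scale a b →
    (({n : ℕ | n ≤ X ∧ Rep a b n}.ncard : ℕ) : ℝ) ≤ (X : ℝ) ^ (1 - ε / 256) := by
  obtain ⟨s₀, h⟩ := two_iter_symm (ε / 2) (by positivity) (by linarith)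
  obtain ⟨s₁, hs₁⟩ : ∃ s₁ : ℕ, 1024 / ε + 4 ≤ s₁ := exists_nat_ge _
  refine ⟨max s₀ s₁, fun a b hs X hX hlX => ?_⟩
  have hs0 : s₀ ≤ a + b := (le_max_left _ _).trans hs
  have hs1 : (s₁ : ℝ) ≤ ((a + b : ℕ) : ℝ) := by exact_mod_cast (le_max_right _ _).trans hs
  have hε4 : 0 < 1024 / ε := by positivity
  have hs4 : (4 : ℝ) ≤ ((a + b : ℕ) : ℝ) := by linarith
  have hse : 1024 / ε ≤ ((a + b : ℕ) : ℝ) := by linarith
  rw [div_le_iff₀ hε] at hse
  have hX0 : (0 : ℝ) < X := by exact_mod_cast hX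
  have hlog2 : Real.log 2 ≤ 1 := by
    have := Real.log_le_sub_one_of_pos (show (0 : ℝ) < 2 by norm_num)
    linarith
  have hlog20 : 0 < Real.log 2 := Real.log_pos (by norm_num)
  have hlogY : Real.log ((2 * X : ℕ) : ℝ) = Real.log 2 + Real.log X := by
    push_cast
    rw [Real.log_mul (by norm_num) hX0.ne']
  have hscale : ((a + b : ℕ) : ℝ) ≤ scale a b := by
    unfold scale
    have h1 : 1 ≤ Real.log ((a + b : ℕ) : ℝ) := by
      rw [Real.le_log_iff_exp_le (by linarith)]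
      have := Real.exp_one_lt_d9
      linarith
    exact le_mul_of_one_le_right (by linarith) h1
  have hY : Real.log ((2 * X : ℕ) : ℝ) ≤ (1 - ε / 2) * scale a b := by
    rw [hlogY]
    have h1 : 2 ≤ ε * scale a b := by
      calc (2 : ℝ) ≤ ((a + b : ℕ) : ℝ) * ε := by linarith
        _ = ε * ((a + b : ℕ) : ℝ) := by ring
        _ ≤ _ := mul_le_mul_of_nonneg_left hscale hε.le
    linarith
  have hcard := card_le a b X
  have hcard2 : (({n : ℕ | n ≤ X ∧ Rep a b n}.ncard : ℕ) : ℝ) ≤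
    ((Nat.primeCounting^[a + 1] (2 * X) * Nat.primeCounting^[b + 1] (2 * X) : ℕ) : ℝ) := by exact_mod_cast hcard
  rcases h a b hs0 (2 * X) hY with h0 | ⟨h1, h2⟩
  · rw [h0] at hcard2
    refine hcard2.trans ?_
    push_cast
    positivity
  · rcases Nat.eq_zero_or_pos (Nat.primeCounting^[a + 1] (2 * X) * Nat.primeCounting^[b + 1] (2 * X)) with h0 | hpos
    · rw [h0] at hcard2
      refine hcard2.trans ?_
      push_cast
      positivity
    · refine hcard2.trans ?_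
      have hA : 0 < Nat.primeCounting^[a + 1] (2 * X) := Nat.pos_of_mul_pos_right hpos
      have hB : 0 < Nat.primeCounting^[b + 1] (2 * X) := Nat.pos_of_mul_pos_left hpos
      have hAr : (0 : ℝ) < (Nat.primeCounting^[a + 1] (2 * X) : ℕ) := by exact_mod_cast hA
      have hBr : (0 : ℝ) < (Nat.primeCounting^[b + 1] (2 * X) : ℕ) := by exact_mod_cast hB
      have h3 : Real.log ((Nat.primeCounting^[a + 1] (2 * X) * Nat.primeCounting^[b + 1] (2 * X) : ℕ) : ℝ) ≤
          Real.log ((X : ℝ) ^ (1 - ε / 256)) := by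
        rw [Real.log_rpow hX0]
        push_cast
        rw [Real.log_mul hAr.ne' hBr.ne']
        refine h2.trans ?_
        rw [hlogY] at h1 ⊢
        have h4 : 2 ≤ ε / 256 * (Real.log 2 + Real.log X) * 2 := by
          have h5 : ε * (1 / 4 * ((a + b : ℕ) : ℝ)) ≤ ε * (Real.log 2 + Real.log X) :=
            mul_le_mul_of_nonneg_left h1 hε.le
          linarith
        have h6 : 0 ≤ ε / 256 * Real.log 2 := by positivity
        have h7 : (1 - ε / 2 / 64) * (Real.log 2 + Real.log X) = (Real.log 2 + Real.log X) -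
          2 * (ε / 256 * (Real.log 2 + Real.log X)) := by ring
        have h8 : (1 - ε / 256) * Real.log X = Real.log X - ε / 256 * (Real.log 2 + Real.log X) + ε / 256 * Real.log 2 := by ring
        rw [h7, h8]
        linarith
      have h9 : (0 : ℝ) < ((Nat.primeCounting^[a + 1] (2 * X) * Nat.primeCounting^[b + 1] (2 * X) : ℕ) : ℝ) := by
        exact_mod_cast hpos
      exact (Real.log_le_log_iff h9 (Real.rpow_pos_of_pos hX0 _)).1 h3

/-- every threshold is large -/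
lemma threshold (ε : ℝ) (hε : 0 < ε) (hε1 : ε ≤ 1 / 2) : ∃ s₀ : ℕ, ∀ a b : ℕ, s₀ ≤ a + b → ∀ L : ℕ,
    (∀ n : ℕ, L < n → Rep a b n) → Real.exp ((1 - ε) * scale a b) < L := by
  obtain ⟨s₀, h⟩ := few (ε / 2) (by positivity) (by linarith)
  obtain ⟨s₁, hs₁⟩ : ∃ s₁ : ℕ, 4096 / ε + 8 ≤ s₁ := exists_nat_ge _
  refine ⟨max s₀ s₁, fun a b hs L hL => ?_⟩
  by_contra hcon
  rw [not_lt] at hcon
  have hs0 : s₀ ≤ a + b := (le_max_left _ _).trans hs
  have hs1 : (s₁ : ℝ) ≤ ((a + b : ℕ) : ℝ) := by exact_mod_cast (le_max_right _ _).trans hs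
  have hε4 : 0 < 4096 / ε := by positivity
  have hs4 : (8 : ℝ) ≤ ((a + b : ℕ) : ℝ) := by linarith
  have hse : 4096 / ε ≤ ((a + b : ℕ) : ℝ) := by linarith
  rw [div_le_iff₀ hε] at hse
  have hlog2 : Real.log 2 ≤ 1 := by
    have := Real.log_le_sub_one_of_pos (show (0 : ℝ) < 2 by norm_num)
    linarith
  have hlog20 : 0 < Real.log 2 := Real.log_pos (by norm_num)
  have hscale : ((a + b : ℕ) : ℝ) ≤ scale a b := by
    unfold scale
    have h1 : 1 ≤ Real.log ((a + b : ℕ) : ℝ) := by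
      rw [Real.le_log_iff_exp_le (by linarith)]
      have := Real.exp_one_lt_d9
      linarith
    exact le_mul_of_one_le_right (by linarith) h1
  have hεs : 4096 ≤ ε * scale a b := by
    calc (4096 : ℝ) ≤ ((a + b : ℕ) : ℝ) * ε := by linarith
      _ = ε * ((a + b : ℕ) : ℝ) := by ring
      _ ≤ _ := mul_le_mul_of_nonneg_left hscale hε.le
  -- the cutoff `X`
  obtain ⟨T, hT⟩ : ∃ T : ℝ, T = (1 - ε / 2) * scale a b := ⟨_, rfl⟩
  obtain ⟨X, hXd⟩ : ∃ X : ℕ, X = ⌊Real.exp T⌋₊ := ⟨_, rfl⟩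
  have hT1 : 4 ≤ T := by
    rw [hT]
    have h1 : (1 / 2) * scale a b ≤ (1 - ε / 2) * scale a b :=
      mul_le_mul_of_nonneg_right (by linarith) (by linarith)
    linarith
  have hXle : (X : ℝ) ≤ Real.exp T := by
    rw [hXd]; exact Nat.floor_le (Real.exp_pos _).le
  have hXlt : Real.exp T < X + 1 := by
    rw [hXd]; exact Nat.lt_floor_add_one _
  have hexp4 : (5 : ℝ) ≤ Real.exp T := by
    have := Real.add_one_le_exp T
    linarith
  have hX4 : (4 : ℝ) ≤ X := by linarith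
  have hX0 : (0 : ℝ) < X := by linarith
  have hX1 : 1 ≤ X := by
    have : (1 : ℝ) ≤ X := by linarith
    exact_mod_cast this
  have hXexp : Real.exp T ≤ 2 * X := by linarith
  have hlogX : Real.log X ≤ (1 - ε / 2) * scale a b := by
    rw [← hT, Real.log_le_iff_le_exp hX0]; exact hXle
  have hfew := h a b hs0 X hX1 hlogX
  -- `L ≤ X / 4`
  have hLX : (L : ℝ) ≤ X / 4 := by
    have h1 : Real.exp ((1 - ε) * scale a b) * 8 ≤ Real.exp T := by
      have h2 : (1 - ε) * scale a b + 7 ≤ T := by rw [hT]; linarith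
      calc Real.exp ((1 - ε) * scale a b) * 8 ≤ Real.exp ((1 - ε) * scale a b) * Real.exp 7 := by
            apply mul_le_mul_of_nonneg_left _ (Real.exp_pos _).le
            have := Real.add_one_le_exp (7 : ℝ)
            linarith
        _ = Real.exp ((1 - ε) * scale a b + 7) := (Real.exp_add _ _).symm
        _ ≤ _ := Real.exp_le_exp.2 h2
    linarith
  -- the count is at least `X - L`
  have hcount : ((X : ℝ) - L) ≤ (({n : ℕ | n ≤ X ∧ Rep a b n}.ncard : ℕ) : ℝ) := by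
    have h1 : ((Finset.Ioc L X : Finset ℕ) : Set ℕ) ⊆ {n : ℕ | n ≤ X ∧ Rep a b n} := by
      intro n hn
      rw [Finset.mem_coe, Finset.mem_Ioc] at hn
      exact ⟨hn.2, hL n hn.1⟩
    have hfin : {n : ℕ | n ≤ X ∧ Rep a b n}.Finite :=
      (Set.finite_Iic X).subset (fun n hn => hn.1)
    have h2 := Set.ncard_le_ncard h1 hfin
    rw [Set.ncard_coe_finset, Nat.card_Ioc] at h2
    have h3 : X ≤ {n : ℕ | n ≤ X ∧ Rep a b n}.ncard + L := by omega
    have h4 : (X : ℝ) ≤ ({n : ℕ | n ≤ X ∧ Rep a b n}.ncard : ℕ) + (L : ℝ) := by exact_mod_cast h3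
    linarith
  -- `X ^ (1 - δ) ≤ X / 2`
  have hpow : (X : ℝ) ^ (1 - ε / 2 / 256) ≤ X / 2 := by
    have h1 : Real.log ((X : ℝ) ^ (1 - ε / 2 / 256)) ≤ Real.log (X / 2) := by
      rw [Real.log_rpow hX0, Real.log_div hX0.ne' (by norm_num)]
      have h2 : T - 1 ≤ Real.log X := by
        have h3 := Real.log_le_log (Real.exp_pos T) hXexp
        rw [Real.log_exp, Real.log_mul (by norm_num) hX0.ne'] at h3
        linarith
      have h4 : ε * (scale a b / 4) ≤ ε * Real.log X := by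
        apply mul_le_mul_of_nonneg_left _ hε.le
        refine le_trans ?_ h2
        rw [hT]
        have h1 : (1 / 2) * scale a b ≤ (1 - ε / 2) * scale a b :=
          mul_le_mul_of_nonneg_right (by linarith) (by linarith)
        linarith
      have h5 : (1 - ε / 2 / 256) * Real.log X = Real.log X - (ε * Real.log X) / 512 := by ring
      rw [h5]
      have h6 : ε * (scale a b / 4) = (ε * scale a b) / 4 := by ring
      linarith
    exact (Real.log_le_log_iff (Real.rpow_pos_of_pos hX0 _) (by positivity)).1 h1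
  linarith

/-- Let `s = a + b` and let `ε > 0`. There are `δ > 0` and `s₀` such that for all `a`, `b` with `s ≥ s₀`:
for `1 ≤ X ≤ exp ((1 - ε) s log s)` at most `X ^ (1 - δ)` integers `n ≤ X` have `2 n` `(a, b)`-representable;
in particular, every `L` past which all `2 n` are `(a, b)`-representable exceeds `exp ((1 - ε) s log s)`. -/
theorem result (ε : ℝ) (hε : 0 < ε) : ∃ δ : ℝ, 0 < δ ∧ ∃ s₀ : ℕ, ∀ a b : ℕ, s₀ ≤ a + b →
    (∀ X : ℕ, 1 ≤ X → (X : ℝ) ≤ Real.exp ((1 - ε) * (((a + b : ℕ) : ℝ) * Real.log ((a + b : ℕ) : ℝ))) →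
      (({n : ℕ | n ≤ X ∧ Rep a b n}.ncard : ℕ) : ℝ) ≤ (X : ℝ) ^ (1 - δ)) ∧
    (∀ L : ℕ, (∀ n : ℕ, L < n → Rep a b n) →
      Real.exp ((1 - ε) * (((a + b : ℕ) : ℝ) * Real.log ((a + b : ℕ) : ℝ))) < L) := by
  obtain ⟨η, hη⟩ : ∃ η : ℝ, η = min ε (1 / 2) := ⟨_, rfl⟩
  have hη0 : 0 < η := by rw [hη]; exact lt_min hε (by norm_num)
  have hη1 : η ≤ 1 / 2 := by rw [hη]; exact min_le_right _ _
  have hηε : η ≤ ε := by rw [hη]; exact min_le_left _ _
  obtain ⟨s₁, h₁⟩ := few η hη0 hη1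
  obtain ⟨s₂, h₂⟩ := threshold η hη0 hη1
  refine ⟨η / 256, by positivity, max s₁ (max s₂ 3), fun a b hs => ?_⟩
  have hs1 : s₁ ≤ a + b := (le_max_left _ _).trans hs
  have hs2 : s₂ ≤ a + b := ((le_max_left _ _).trans (le_max_right _ _)).trans hs
  have hs4 : 3 ≤ a + b := ((le_max_right _ _).trans (le_max_right _ _)).trans hs
  have hs4r : (3 : ℝ) ≤ ((a + b : ℕ) : ℝ) := by exact_mod_cast hs4
  have hsc : 0 < scale a b := by
    unfold scale
    have : 0 < Real.log ((a + b : ℕ) : ℝ) := Real.log_pos (by linarith)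
    positivity
  have hle : (1 - ε) * scale a b ≤ (1 - η) * scale a b := mul_le_mul_of_nonneg_right (by linarith) hsc.le
  refine ⟨fun X hX hXle => ?_, fun L hL => ?_⟩
  · have hX0 : (0 : ℝ) < X := by exact_mod_cast hX
    apply h₁ a b hs1 X hX
    refine le_trans ?_ hle
    rw [Real.log_le_iff_le_exp hX0]
    exact hXle
  · refine lt_of_le_of_lt ?_ (h₂ a b hs2 L hL)
    exact Real.exp_le_exp.2 hle

end Pool.Agent.Results.MP_778b46_nt.ThresholdGrowth
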